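import Pool.Agent.W558.WA.Stms
import Pool.Agent.W932.WD.Dat

/-! AS-X: existence of the invariants of an Artin-Schreier function at a point of a surface. -/

set_option autoImplicit false
set_option linter.unusedVariables false
set_option linter.unusedSectionVars false

universe u

open Polynomial

namespace Pool.Agent.W565.WA

open Pool.Agent.W558 Pool.Agent.W932.WD

theorem inv_nat_mem {k E : Type u} [Field k] [Field E] [Algebra k E] (O : Subalgebra k E)
    (n : ℕ) : ((n : E))⁻¹ ∈ O := by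
  have h : ((n : E))⁻¹ = algebraMap k E ((n : k)⁻¹) := by rw [map_inv₀, map_natCast]
  rw [h]
  exact O.algebraMap_mem _

theorem step (p : ℕ) [Fact p.Prime] {k E : Type u} [Field k] [Field E] [Algebra k E] [CharP E p]
    {O : Subalgebra k E} {x y : E} (hx : x ∈ O) (hy : y ∈ O) (hx0 : x ≠ 0) (hy0 : y ≠ 0)
    (D1 : Derivation k E E) (hD1 : ∀ a ∈ O, D1 a ∈ O)
    (f' h : E) (N M : ℕ) (hN : 1 ≤ N) (hh : h = f' * (x ^ N * y ^ M)) (hhO : h ∈ O)
    (s : E) (hs : s ∈ O) (h1 : x * D1 h - (N : E) * h = x * s)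
    (hp : ∃ b ∈ O, ∃ w ∈ O, h - y ^ (M % p) * b ^ p = x * w) :
    ∃ e : E, (f' - (e ^ p - e)) * (x ^ (N - 1) * y ^ M) ∈ O := by
  have hpp : p.Prime := Fact.out
  have hxN : x ^ N = x ^ (N - 1) * x := by
    rw [← pow_succ]; congr 1; omega
  by_cases hpN : p ∣ N
  · obtain ⟨q, hq⟩ := hpN
    obtain ⟨b, hb, w, hw, hbw⟩ := hp
    have hq1 : 1 ≤ q := by
      rcases Nat.eq_zero_or_pos q with h0 | h0
      · rw [h0, mul_zero] at hq; omega
      · exact h0
    have hqN : q ≤ N - 1 := by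
      have h2 := hpp.two_le
      have h3 : 2 * q ≤ p * q := Nat.mul_le_mul_right q h2
      omega
    have hMM : M / p ≤ M := Nat.div_le_self M p
    refine ⟨b * ((x ^ q)⁻¹ * (y ^ (M / p))⁻¹), ?_⟩
    have hxq : x ^ q ≠ 0 := pow_ne_zero _ hx0
    have hyq : y ^ (M / p) ≠ 0 := pow_ne_zero _ hy0
    have e1 : (b * ((x ^ q)⁻¹ * (y ^ (M / p))⁻¹)) ^ p * (x ^ N * y ^ M) =
        y ^ (M % p) * b ^ p := by
      have h2 : x ^ N = (x ^ q) ^ p := by rw [← pow_mul, mul_comm q p, ← hq]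
      have h3 : y ^ M = (y ^ (M / p)) ^ p * y ^ (M % p) := by
        rw [← pow_mul, ← pow_add]
        congr 1
        rw [mul_comm]
        exact (Nat.div_add_mod M p).symm
      rw [h2, h3, mul_pow, mul_pow, inv_pow, inv_pow]
      have h4 : (x ^ q) ^ p ≠ 0 := pow_ne_zero _ hxq
      have h5 : (y ^ (M / p)) ^ p ≠ 0 := pow_ne_zero _ hyq
      field_simp
    have e2 : b * ((x ^ q)⁻¹ * (y ^ (M / p))⁻¹) * (x ^ N * y ^ M) =
        x * (b * x ^ (N - 1 - q) * y ^ (M - M / p)) := by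
      have h2 : x ^ N = x ^ q * (x ^ (N - 1 - q) * x) := by
        rw [← pow_succ, ← pow_add]
        congr 1
        omega
      have h3 : y ^ M = y ^ (M / p) * y ^ (M - M / p) := by
        rw [← pow_add]
        congr 1
        omega
      rw [h2, h3]
      field_simp
    have e3 : (f' - ((b * ((x ^ q)⁻¹ * (y ^ (M / p))⁻¹)) ^ p -
        b * ((x ^ q)⁻¹ * (y ^ (M / p))⁻¹))) * (x ^ (N - 1) * y ^ M) =
        w + b * x ^ (N - 1 - q) * y ^ (M - M / p) := by
      apply mul_left_cancel₀ hx0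
      calc x * ((f' - ((b * ((x ^ q)⁻¹ * (y ^ (M / p))⁻¹)) ^ p -
            b * ((x ^ q)⁻¹ * (y ^ (M / p))⁻¹))) * (x ^ (N - 1) * y ^ M))
          = f' * (x ^ N * y ^ M) - (b * ((x ^ q)⁻¹ * (y ^ (M / p))⁻¹)) ^ p * (x ^ N * y ^ M) +
            b * ((x ^ q)⁻¹ * (y ^ (M / p))⁻¹) * (x ^ N * y ^ M) := by rw [hxN]; ring
        _ = h - y ^ (M % p) * b ^ p + x * (b * x ^ (N - 1 - q) * y ^ (M - M / p)) := by
            rw [e1, e2, ← hh]
        _ = x * (w + b * x ^ (N - 1 - q) * y ^ (M - M / p)) := by rw [hbw]; ring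
    rw [e3]
    exact O.add_mem hw (O.mul_mem (O.mul_mem hb (O.pow_mem hx _)) (O.pow_mem hy _))
  · have hNE : (N : E) ≠ 0 := by
      rw [Ne, CharP.cast_eq_zero_iff E p]
      exact hpN
    refine ⟨0, ?_⟩
    rw [zero_pow hpp.ne_zero, sub_zero, sub_zero]
    have e4 : f' * (x ^ (N - 1) * y ^ M) = ((N : E))⁻¹ * (D1 h - s) := by
      apply mul_left_cancel₀ hx0
      have h2 : x * (f' * (x ^ (N - 1) * y ^ M)) = h := by rw [hh, hxN]; ring
      have h3 : (N : E) * h = x * (D1 h - s) := by linear_combination (-1 : E) * h1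
      rw [h2]
      apply mul_left_cancel₀ hNE
      rw [h3]
      field_simp
    rw [e4]
    exact O.mul_mem (inv_nat_mem O N) (O.sub_mem (hD1 h hhO) hs)

theorem main (hder : WD_der.{u}) (hthb : WD_thb.{u}) (hpx : WA_px.{u}) : WA_x.{u} := by
  classical
  intro p _ k E _ _ _ _ _ htr O x y f hO hP
  have hpp : p.Prime := Fact.out
  haveI : CharP E p := charP_of_injective_algebraMap (algebraMap k E).injective p
  obtain ⟨D1, D2, hD1, hD2, h1x, h1y, h2x, h2y, hD⟩ := hder k E htr O x y hO hP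
  obtain ⟨hT1, hT2, -⟩ := hthb k E htr O x y D1 D2 hO hP hD1 hD2 h1x h1y h2x h2y hD
  have hP' : Par O y x := by
    refine ⟨hP.pv, hP.pu, hP.v0, hP.u0, ?_, ?_⟩
    · intro z hz
      obtain ⟨α, hα, β, hβ, h⟩ := hP.gen z hz
      exact ⟨β, hβ, α, hα, by rw [h]; ring⟩
    · intro b hb c hc h
      obtain ⟨d, hd, h1⟩ := hP.reg c hc b hb h.symm
      refine ⟨d, hd, ?_⟩
      apply mul_left_cancel₀ hP.u0
      rw [← h, h1]; ring
  have hN := Pt2.noeth hO
  have hadd := Pt2.loc hO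
  have hx := hP.pu
  have hy := hP.pv
  have hx0 := hP.u0
  have hy0 := hP.v0
  have hadd' : ∀ a e : E, f - ((a + e) ^ p - (a + e)) = f - (a ^ p - a) - (e ^ p - e) := by
    intro a e
    rw [add_pow_char]; ring
  constructor
  · rintro ⟨N0, hN0⟩
    have hex : ∃ N : ℕ, ∃ a : E, (f - (a ^ p - a)) * x ^ N ∈ O :=
      ⟨N0, 0, by rw [zero_pow hpp.ne_zero, sub_zero, sub_zero]; exact hN0⟩
    obtain ⟨a, ha⟩ := Nat.find_spec hex
    have hmin := fun m (hm : m < Nat.find hex) => Nat.find_min hex hm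
    generalize Nat.find hex = N at ha hmin
    rcases Nat.eq_zero_or_pos N with h0 | hpos
    · exact ⟨N, 0, a, ha, fun h => by omega⟩
    · set f' := f - (a ^ p - a) with hf'
      set h := f' * x ^ N with hh
      have hF : x * D1 f' * x ^ N = x * D1 h - N * h := by
        have h1 := der_frac D1 f' x hx0 N
        rw [h1x, ← hh, mul_one] at h1
        rw [← h1]; ring
      have hG : D2 f' * x ^ N = D2 h := by
        have h1 := der_frac D2 f' x hx0 N
        rw [h2x, ← hh, mul_zero, sub_zero] at h1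
        have h3 : (D2 f' * x ^ N) * x = D2 h * x := by rw [h1]; ring
        exact mul_right_cancel₀ hx0 h3
      have hFO : x * D1 f' * x ^ N ∈ O := by
        rw [hF]
        exact O.sub_mem (O.mul_mem hx.mem (hD1 h ha)) (O.mul_mem (O.natCast_mem N) ha)
      have hGO : D2 f' * x ^ N ∈ O := by rw [hG]; exact hD2 h ha
      have hnot : ¬ (∃ s ∈ O, ∃ t ∈ O, x * D1 f' * x ^ N = x * s ∧ D2 f' * x ^ N = x * t) := by
        rintro ⟨s, hs, t, ht, e1, e2⟩
        obtain ⟨e, he⟩ := step p hx.mem hy.mem hx0 hy0 D1 hD1 f' h N 0 hpos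
          (by rw [pow_zero, mul_one]) ha s hs (by rw [← hF]; exact e1)
          (hpx p k E htr O x y D2 hO hP hD2 h2x h2y h ha 0
            ⟨y * t, O.mul_mem hy.mem ht, by
              rw [← hG, e2, Nat.cast_zero]; ring⟩)
        apply hmin (N - 1) (by omega)
        refine ⟨a + e, ?_⟩
        rw [hadd', ← hf']
        rw [pow_zero, mul_one] at he
        exact he
      obtain ⟨c, hc1, hc2, hc3⟩ := ox_exists hN hadd hx.mem hy _ _ hFO hGO hnot
      refine ⟨N, c, a, ha, fun _ => ⟨?_, ?_⟩⟩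
      · intro θ hθ
        obtain ⟨α, hα, β, hβ, rfl⟩ := (hT1 θ).mp hθ
        have h1 : (α • (x • D1) + β • D2) f' * x ^ N =
            α * (x * D1 f' * x ^ N) + β * (D2 f' * x ^ N) := by
          show (α * (x * D1 f') + β * D2 f') * x ^ N = _
          ring
        rw [← hf', h1]
        exact Ox_comb hα hβ hc1 hc2
      · by_cases hc : Ox O x y (c + 1) (x * D1 f' * x ^ N)
        · have hv : ¬ Ox O x y (c + 1) (D2 f' * x ^ N) := fun h => hc3 ⟨hc, h⟩
          exact ⟨D2, (hT1 _).mpr ⟨0, O.zero_mem, 1, O.one_mem,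
            by rw [zero_smul, zero_add, one_smul]⟩, hv⟩
        · exact ⟨x • D1, (hT1 _).mpr ⟨1, O.one_mem, 0, O.zero_mem,
            by rw [zero_smul, add_zero, one_smul]⟩, hc⟩
  · rintro ⟨N0, hN0⟩
    have hex : ∃ s : ℕ, ∃ N M : ℕ, ∃ a : E, N + M = s ∧ (f - (a ^ p - a)) * (x ^ N * y ^ M) ∈ O :=
      ⟨N0 + N0, N0, N0, 0, rfl, by
        rw [zero_pow hpp.ne_zero, sub_zero, sub_zero, ← mul_pow]; exact hN0⟩
    obtain ⟨N, M, a, hs, ha⟩ := Nat.find_spec hex
    have hmin := fun m (hm : m < Nat.find hex) => Nat.find_min hex hm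
    generalize Nat.find hex = S at hs hmin
    set f' := f - (a ^ p - a) with hf'
    set h := f' * (x ^ N * y ^ M) with hh
    have hderX : ∀ D : Derivation k E E, ∀ (c d : E), D x = c → D y = d →
        D f' * (x ^ N * y ^ M) * (x * y) =
          x * y * D h - (N * c * y + M * d * x) * h := by
      intro D c d hc hd
      have h1 := der_frac D (f' * x ^ N) y hy0 M
      have h2 := der_frac D f' x hx0 N
      rw [hd] at h1
      rw [hc] at h2
      have h3 : f' * x ^ N * y ^ M = h := by rw [hh]; ring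
      rw [h3] at h1
      have h4 : D f' * (x ^ N * y ^ M) * (x * y) = (D f' * x ^ N * x) * y ^ M * y := by ring
      rw [h4, h2]
      have h5 : (x * D (f' * x ^ N) - N * (f' * x ^ N) * c) * y ^ M * y =
          x * (D (f' * x ^ N) * y ^ M * y) - N * c * y * (f' * x ^ N * y ^ M) := by ring
      rw [h5, h1, h3]
      ring
    have hF : x * D1 f' * (x ^ N * y ^ M) = x * D1 h - N * h := by
      have h1 := hderX D1 1 0 h1x h1y
      apply mul_right_cancel₀ hy0
      calc x * D1 f' * (x ^ N * y ^ M) * y = D1 f' * (x ^ N * y ^ M) * (x * y) := by ring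
        _ = _ := by rw [h1]; ring
    have hG : y * D2 f' * (x ^ N * y ^ M) = y * D2 h - M * h := by
      have h1 := hderX D2 0 1 h2x h2y
      apply mul_right_cancel₀ hx0
      calc y * D2 f' * (x ^ N * y ^ M) * x = D2 f' * (x ^ N * y ^ M) * (x * y) := by ring
        _ = _ := by rw [h1]; ring
    have hFO : x * D1 f' * (x ^ N * y ^ M) ∈ O := by
      rw [hF]
      exact O.sub_mem (O.mul_mem hx.mem (hD1 h ha)) (O.mul_mem (O.natCast_mem N) ha)
    have hGO : y * D2 f' * (x ^ N * y ^ M) ∈ O := by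
      rw [hG]
      exact O.sub_mem (O.mul_mem hy.mem (hD2 h ha)) (O.mul_mem (O.natCast_mem M) ha)
    have hnot1 : 1 ≤ N → ¬ (∃ s ∈ O, ∃ t ∈ O, x * D1 f' * (x ^ N * y ^ M) = x * s ∧
        y * D2 f' * (x ^ N * y ^ M) = x * t) := by
      rintro hN1 ⟨s, hs', t, ht, e1, e2⟩
      obtain ⟨e, he⟩ := step p hx.mem hy.mem hx0 hy0 D1 hD1 f' h N M hN1 rfl ha s hs'
        (by rw [← hF]; exact e1)
        (hpx p k E htr O x y D2 hO hP hD2 h2x h2y h ha M ⟨t, ht, by rw [← hG]; exact e2⟩)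
      apply hmin (N - 1 + M) (by omega)
      exact ⟨N - 1, M, a + e, rfl, by rw [hadd', ← hf']; exact he⟩
    have hnot2 : 1 ≤ M → ¬ (∃ s ∈ O, ∃ t ∈ O, x * D1 f' * (x ^ N * y ^ M) = y * s ∧
        y * D2 f' * (x ^ N * y ^ M) = y * t) := by
      rintro hM1 ⟨s, hs', t, ht, e1, e2⟩
      obtain ⟨e, he⟩ := step p hy.mem hx.mem hy0 hx0 D2 hD2 f' h M N hM1
        (by rw [hh]; ring) ha t ht
        (by rw [← hG]; exact e2)
        (hpx p k E htr O y x D1 hO hP' hD1 h1y h1x h ha N ⟨s, hs', by rw [← hF]; exact e1⟩)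
      apply hmin (N + (M - 1)) (by omega)
      exact ⟨N, M - 1, a + e, rfl, by
        rw [hadd', ← hf', mul_comm (x ^ N)]; exact he⟩
    have hform : ∀ α β : E, (α • (x • D1) + β • (y • D2)) f' * (x ^ N * y ^ M) =
        α * (x * D1 f' * (x ^ N * y ^ M)) + β * (y * D2 f' * (x ^ N * y ^ M)) := by
      intro α β
      show (α * (x * D1 f') + β * (y * D2 f')) * _ = _
      ring
    have hall : ∀ (u v : E) (c : ℕ), Ox O u v c (x * D1 f' * (x ^ N * y ^ M)) →
        Ox O u v c (y * D2 f' * (x ^ N * y ^ M)) →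
        ¬ (Ox O u v (c + 1) (x * D1 f' * (x ^ N * y ^ M)) ∧
          Ox O u v (c + 1) (y * D2 f' * (x ^ N * y ^ M))) →
        Rs O (uo O x ∪ uo O y) u v (x ^ N * y ^ M) f' c := by
      intro u v c hc1 hc2 hc3
      refine ⟨?_, ?_⟩
      · intro θ hθ
        obtain ⟨α, hα, β, hβ, rfl⟩ := (hT2 θ).mp hθ
        rw [hform]
        exact Ox_comb hα hβ hc1 hc2
      · by_cases hc : Ox O u v (c + 1) (x * D1 f' * (x ^ N * y ^ M))
        · have hv : ¬ Ox O u v (c + 1) (y * D2 f' * (x ^ N * y ^ M)) := fun h' => hc3 ⟨hc, h'⟩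
          refine ⟨(0 : E) • (x • D1) + (1 : E) • (y • D2),
            (hT2 _).mpr ⟨0, O.zero_mem, 1, O.one_mem, rfl⟩, ?_⟩
          rw [hform, zero_mul, zero_add, one_mul]
          exact hv
        · refine ⟨(1 : E) • (x • D1) + (0 : E) • (y • D2),
            (hT2 _).mpr ⟨1, O.one_mem, 0, O.zero_mem, rfl⟩, ?_⟩
          rw [hform, zero_mul, add_zero, one_mul]
          exact hc
    have hc : ∃ c, 1 ≤ N → Rs O (uo O x ∪ uo O y) x y (x ^ N * y ^ M) f' c := by
      by_cases hN1 : 1 ≤ N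
      · obtain ⟨c, hc1, hc2, hc3⟩ := ox_exists hN hadd hx.mem hy _ _ hFO hGO (hnot1 hN1)
        exact ⟨c, fun _ => hall x y c hc1 hc2 hc3⟩
      · exact ⟨0, fun h' => absurd h' hN1⟩
    have hd : ∃ d, 1 ≤ M → Rs O (uo O x ∪ uo O y) y x (x ^ N * y ^ M) f' d := by
      by_cases hM1 : 1 ≤ M
      · obtain ⟨c, hc1, hc2, hc3⟩ := ox_exists hN hadd hy.mem hx _ _ hFO hGO (hnot2 hM1)
        exact ⟨c, fun _ => hall y x c hc1 hc2 hc3⟩
      · exact ⟨0, fun h' => absurd h' hM1⟩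
    obtain ⟨c, hc⟩ := hc
    obtain ⟨d, hd⟩ := hd
    exact ⟨N, M, c, d, a, ha, hc, hd⟩

end Pool.Agent.W565.WA
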